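import Pool.Agent.GNX.R0

set_option autoImplicit false

namespace Pool.Agent.Results.MP_34580b_co.ExcludedMinors

open Pool.Agent.GNX (Built)

/-- `H` is a minor of `G`: disjoint connected branch sets with the required adjacencies. -/
def HasMinor {W V : Type} (H : SimpleGraph W) (G : SimpleGraph V) : Prop :=
  ∃ φ : W → Set V, (∀ a, (G.induce (φ a)).Connected) ∧
    (∀ a b, a ≠ b → Disjoint (φ a) (φ b)) ∧
    (∀ a b, H.Adj a b → ∃ x ∈ φ a, ∃ y ∈ φ b, G.Adj x y)

/-- 3-connected: at least four vertices, and connected after the removal of any set of at most two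
vertices. -/
def ThreeConn {U : Type} [Fintype U] (G : SimpleGraph U) : Prop :=
  4 ≤ Fintype.card U ∧ ∀ X : Finset U, X.card ≤ 2 → (G.induce ((X : Set U)ᶜ)).Connected

/-- The conjecture (the frozen statement S08031 with `H` fixed) for every `H` such that the 3-connected graphs without
`H`-minor belong to the class `Built k r`, with a constant which depends on `k` and `r` only. -/
theorem result :
    ∀ k r : ℕ, ∃ c : ℝ, 0 < c ∧
      ∀ (W : Type) [Fintype W] (H : SimpleGraph W),
        (∀ (U : Type) [Fintype U] (G : SimpleGraph U), ThreeConn G → ¬ HasMinor H G →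
          Built k r Set.univ G) →
        ∀ (V : Type) [Fintype V] (G : SimpleGraph V), G.Connected → ¬ HasMinor H G →
          ∀ w : Sym2 V → ℝ, (∀ e, 0 < w e) →
            ∃ n : ℕ, ∃ f : V → Fin n → ℝ,
              (∀ u v, G.Adj u v → ∑ i, |f u i - f v i| ≤ c * w s(u, v)) ∧
              (∀ u v, ∃ p : G.Walk u v, (p.edges.map w).sum ≤ ∑ i, |f u i - f v i|) := by
  intro k r
  obtain ⟨c, hc, h⟩ := Pool.Agent.GNX.gnrs_of_builtU k r
  exact ⟨c, hc, fun W _ H => h W H⟩

end Pool.Agent.Results.MP_34580b_co.ExcludedMinors
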