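import Pool.Agent.RAM.Z0

set_option autoImplicit false

namespace Pool.Agent.Results.MP_34580b_co.GridMinors

/-- `H` is a minor of `G`: disjoint connected branch sets with the required adjacencies. -/
def HasMinor {W V : Type} (H : SimpleGraph W) (G : SimpleGraph V) : Prop :=
  ∃ φ : W → Set V, (∀ a, (G.induce (φ a)).Connected) ∧
    (∀ a b, a ≠ b → Disjoint (φ a) (φ b)) ∧
    (∀ a b, H.Adj a b → ∃ x ∈ φ a, ∃ y ∈ φ b, G.Adj x y)

/-- The conjecture (the frozen statement S08031 with `H` fixed) for every minor `H` of a `3 × l` grid, with a constant which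
depends on `l` only. -/
theorem result :
    ∀ l : ℕ, ∃ c : ℝ, 0 < c ∧
      ∀ (W : Type) [Fintype W] (H : SimpleGraph W),
        HasMinor H (SimpleGraph.boxProd (SimpleGraph.pathGraph 3) (SimpleGraph.pathGraph l)) →
        ∀ (V : Type) [Fintype V] (G : SimpleGraph V), G.Connected → ¬ HasMinor H G →
          ∀ w : Sym2 V → ℝ, (∀ e, 0 < w e) →
            ∃ n : ℕ, ∃ f : V → Fin n → ℝ,
              (∀ u v, G.Adj u v → ∑ i, |f u i - f v i| ≤ c * w s(u, v)) ∧
              (∀ u v, ∃ p : G.Walk u v, (p.edges.map w).sum ≤ ∑ i, |f u i - f v i|) := by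
  intro l
  obtain ⟨c, hc, h⟩ := Pool.Agent.RAM.gnrs_grid3 l
  refine ⟨c, hc, fun W _ H hH => h W H ?_⟩
  rw [Pool.Agent.RAM.grid3_eq] at hH
  exact hH

end Pool.Agent.Results.MP_34580b_co.GridMinors
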