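import Pool.Agent.GNX.R0

set_option autoImplicit false

namespace Pool.Agent.Results.MP_34580b_co.TwoSumsApex

open Pool.Agent.GNX (Built)

/-- The graphs built from graphs of bounded pathwidth by sums along at most two vertices and adding a vertex, nested a
bounded number of times, embed in `ℓ₁` with bounded distortion (the conclusion of the frozen statement S08031 for this
class of graphs). -/
theorem result :
    ∀ k r : ℕ, ∃ c : ℝ, 0 < c ∧
      ∀ (V : Type) [Fintype V] (G : SimpleGraph V), G.Connected → Built k r Set.univ G →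
        ∀ w : Sym2 V → ℝ, (∀ e, 0 < w e) →
          ∃ n : ℕ, ∃ f : V → Fin n → ℝ,
            (∀ u v, G.Adj u v → ∑ i, |f u i - f v i| ≤ c * w s(u, v)) ∧
            (∀ u v, ∃ p : G.Walk u v, (p.edges.map w).sum ≤ ∑ i, |f u i - f v i|) := by
  intro k r
  obtain ⟨c, hc, h⟩ := Pool.Agent.GNX.gnrs_pt k r
  exact ⟨c, hc, fun V _ G hG hB w hw => h V G hG hB.pt w hw⟩

end Pool.Agent.Results.MP_34580b_co.TwoSumsApex
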